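import Mathlib
import Pool.Agent.H370Z.Rigid.Main

/-!
# MP_5382b1_gt: a zero-dimensional sigma-homogeneous rigid space exists

The space is a subspace of the 2-adic numbers that is the union of two homogeneous subspaces.
-/

set_option autoImplicit false

open Cardinal

namespace Pool.Agent.Results.MP_5382b1_gt.RigidSigmaHomogeneous

/-- `X` has a base consisting of clopen sets. -/
def ZeroDimensional (X : Type) [TopologicalSpace X] : Prop :=
  ∃ B : Set (Set X), TopologicalSpace.IsTopologicalBasis B ∧ ∀ U ∈ B, IsClopen U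

/-- Any point of `X` is moved to any other point by a homeomorphism of `X` onto itself. -/
def Homogeneous (X : Type) [TopologicalSpace X] : Prop :=
  ∀ x y : X, ∃ h : X ≃ₜ X, h x = y

/-- `X` is the union of a sequence of homogeneous subspaces. -/
def SigmaHomogeneous (X : Type) [TopologicalSpace X] : Prop :=
  ∃ Y : ℕ → Set X, (⋃ n, Y n) = Set.univ ∧ ∀ n, Homogeneous (Y n)

/-- `X` has at least two points and the identity is its only homeomorphism onto itself. -/
def Rigid (X : Type) [TopologicalSpace X] : Prop :=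
  Nontrivial X ∧ ∀ h : X ≃ₜ X, h = Homeomorph.refl X

lemma card_padic : #ℚ_[2] = 𝔠 := by
  apply le_antisymm
  · obtain ⟨f, -, hf⟩ := exists_nat_nat_continuous_surjective_of_completeSpace ℚ_[2]
    simpa using mk_le_of_surjective hf
  · exact continuum_le_cardinal_of_nontriviallyNormedField ℚ_[2]

lemma exists_irrational : ∃ α : ℚ_[2], α ∉ Set.range ((↑) : ℚ → ℚ_[2]) := by
  by_contra h
  push Not at h
  have h1 : Function.Surjective ((↑) : ℚ → ℚ_[2]) := h
  have h2 := mk_le_of_surjective h1
  rw [card_padic] at h2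
  exact absurd (h2.trans mk_le_aleph0) (not_le.mpr aleph0_lt_continuum)

lemma exists_subgroups : ∃ D : Fin 2 → AddSubgroup ℚ_[2], (∀ i, Dense (D i : Set ℚ_[2])) ∧
    (∀ i, (D i : Set ℚ_[2]).Countable) ∧ ∀ z, z ∈ D 0 → z ∈ D 1 → z = 0 := by
  obtain ⟨α, hα⟩ := exists_irrational
  have hα0 : α ≠ 0 := fun h => hα ⟨0, by simp [h]⟩
  let c : ℚ →+ ℚ_[2] := (Rat.castHom ℚ_[2]).toAddMonoidHom
  let d : ℚ →+ ℚ_[2] := (AddMonoidHom.mulLeft α).comp c
  have hc : DenseRange c := Padic.denseRange_ratCast 2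
  have hd : DenseRange d :=
    DenseRange.comp (g := fun x => α * x) (mul_left_surjective₀ hα0).denseRange hc
      (continuous_const.mul continuous_id)
  refine ⟨![c.range, d.range], ?_, ?_, ?_⟩
  · intro i; fin_cases i
    · exact hc
    · exact hd
  · intro i; fin_cases i
    · exact Set.countable_range c
    · exact Set.countable_range d
  · rintro z ⟨p, hp⟩ ⟨q, hq⟩
    by_cases h : q = 0
    · rw [← hq, h, map_zero]
    · exfalso
      apply hα
      refine ⟨p / q, ?_⟩
      have h1 : (p : ℚ_[2]) = α * q := hp.trans hq.symm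
      have h2 : (q : ℚ_[2]) ≠ 0 := by exact_mod_cast h
      rw [Rat.cast_div, h1, mul_div_assoc, div_self h2, mul_one]

/-- There is a separable metrizable zero-dimensional space that is rigid and sigma-homogeneous,
in fact the union of two homogeneous subspaces. -/
theorem result : ∃ (X : Type) (_ : TopologicalSpace X),
    TopologicalSpace.SeparableSpace X ∧ TopologicalSpace.MetrizableSpace X ∧ ZeroDimensional X ∧
    SigmaHomogeneous X ∧ Rigid X ∧
    ∃ Y₀ Y₁ : Set X, Y₀ ∪ Y₁ = Set.univ ∧ Homogeneous Y₀ ∧ Homogeneous Y₁ := by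
  obtain ⟨D, hD, hc, h01⟩ := exists_subgroups
  obtain ⟨X, Y, hX, hY, hnt, hrig⟩ := Pool.Agent.H370Z.Rigid.main card_padic D hD hc h01
  have hom : ∀ i, Homogeneous (Subtype.val ⁻¹' Y i : Set X) := by
    intro i
    refine Pool.Agent.H370Z.Rigid.homogeneous_of_invariant (D i) (hD i) X (Y i) ?_ (hY i)
    rw [hX]
    fin_cases i
    · exact Set.subset_union_left
    · exact Set.subset_union_right
  have hun : (Subtype.val ⁻¹' Y 0 : Set X) ∪ Subtype.val ⁻¹' Y 1 = Set.univ := by
    rw [← Set.preimage_union, ← hX]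
    simp
  refine ⟨X, inferInstance, inferInstance, inferInstance, ⟨{U | IsClopen U}, ?_, fun U hU => hU⟩,
    ⟨fun n => Subtype.val ⁻¹' Y (if n = 0 then 0 else 1), ?_, fun n => hom _⟩,
    ⟨hnt, hrig⟩, _, _, hun, hom 0, hom 1⟩
  · refine TopologicalSpace.isTopologicalBasis_of_isOpen_of_nhds (fun U hU => hU.isOpen) ?_
    intro a U ha hU
    obtain ⟨ε, hε, hb⟩ := Metric.isOpen_iff.mp hU a ha
    exact ⟨Metric.ball a ε, IsUltrametricDist.isClopen_ball a ε, Metric.mem_ball_self hε, hb⟩
  · apply Set.eq_univ_of_forall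
    intro z
    have hz : z ∈ (Subtype.val ⁻¹' Y 0 : Set X) ∪ Subtype.val ⁻¹' Y 1 := hun ▸ Set.mem_univ z
    rcases hz with hz | hz
    · exact Set.mem_iUnion.mpr ⟨0, by simpa using hz⟩
    · exact Set.mem_iUnion.mpr ⟨1, by simpa using hz⟩

end Pool.Agent.Results.MP_5382b1_gt.RigidSigmaHomogeneous
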